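import Pool.Agent.H295R2.MK.Defs

set_option autoImplicit false

/-!
`W4` is the multiplicative function with local weights `lam4`.
-/

namespace Pool.Agent.H835R2.MK_A1

open Finset Filter Topology MeasureTheory Complex
open Pool.Agent.H306R2 Pool.Agent.H223.EM H295MK

noncomputable section

lemma dv_eq (j : ℕ) {P : Finset ℕ} {n : ℕ} (hn : n ≠ 0) (hP : n.primeFactors ⊆ P) :
    dv j n = ∏ p ∈ P, lc j (n.factorization p) := by
  unfold dv
  rw [if_neg hn]
  unfold Finsupp.prod
  rw [Nat.support_factorization]
  refine prod_subset hP fun p _ hp => ?_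
  have : n.factorization p = 0 := by
    rw [← Finsupp.notMem_support_iff, Nat.support_factorization]; exact hp
  rw [this]
  exact lc_zero _

lemma inv_eq {P : Finset ℕ} {n : ℕ} (hn : n ≠ 0) (hP : n.primeFactors ⊆ P) :
    (1 : ℝ) / n = ∏ p ∈ P, (1 / (p : ℝ)) ^ (n.factorization p) := by
  have h1 : (n : ℝ) = ∏ p ∈ P, (p : ℝ) ^ (n.factorization p) := by
    conv_lhs => rw [← Nat.prod_factorization_pow_eq_self hn]
    unfold Finsupp.prod
    push_cast
    rw [Nat.support_factorization]
    refine prod_subset hP fun p _ hp => ?_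
    have : n.factorization p = 0 := by
      rw [← Finsupp.notMem_support_iff, Nat.support_factorization]; exact hp
    rw [this]; simp
  rw [h1, one_div, ← prod_inv_distrib]
  refine prod_congr rfl fun p _ => ?_
  rw [one_div, inv_pow]

theorem W4_eq (j : ℕ) (b : Fin 4 → ℕ) : W4 j b = mw (lam4 j) b := by
  unfold W4 mw
  by_cases hb : ∀ i, b i ≠ 0
  · rw [if_pos hb]
    set P := (∏ i, b i).primeFactors with hPdef
    have hprod : (∏ i, b i) ≠ 0 := prod_ne_zero_iff.2 fun i _ => hb i
    have hsub : ∀ i, (b i).primeFactors ⊆ P := fun i =>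
      Nat.primeFactors_mono (dvd_prod_of_mem b (mem_univ i)) hprod
    have hsub2 : ∀ i j, (b i * b j).primeFactors ⊆ P := fun i j => by
      rw [Nat.primeFactors_mul (hb i) (hb j)]
      exact union_subset (hsub i) (hsub j)
    by_cases hc : Nat.Coprime (b 0) (b 1)
    · rw [if_pos ⟨hc, hb⟩]
      have hd : ∀ i k, dv j (b i * b k) =
          ∏ p ∈ P, lc j ((b i).factorization p + (b k).factorization p) := fun i k => by
        rw [dv_eq j (mul_ne_zero (hb i) (hb k)) (hsub2 i k)]
        refine prod_congr rfl fun p _ => ?_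
        rw [Nat.factorization_mul (hb i) (hb k)]
        rfl
      have hi : (1 : ℝ) / ((b 0 : ℝ) * (b 1 : ℝ) * (b 2 : ℝ) * (b 3 : ℝ)) =
          ∏ p ∈ P, (1 / (p : ℝ)) ^ ((b 0).factorization p + (b 1).factorization p +
            (b 2).factorization p + (b 3).factorization p) := by
        simp only [pow_add]
        rw [prod_mul_distrib, prod_mul_distrib, prod_mul_distrib, ← inv_eq (hb 0) (hsub 0),
          ← inv_eq (hb 1) (hsub 1), ← inv_eq (hb 2) (hsub 2), ← inv_eq (hb 3) (hsub 3)]
        rw [one_div_mul_one_div, one_div_mul_one_div, one_div_mul_one_div]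
      rw [div_eq_mul_one_div, hi, hd, hd, hd, hd, ← prod_mul_distrib, ← prod_mul_distrib,
        ← prod_mul_distrib, ← prod_mul_distrib]
      refine prod_congr rfl fun p _ => ?_
      unfold lam4
      rw [if_pos]
      have h0 := hc.disjoint_primeFactors
      by_contra hcon
      push Not at hcon
      have h1 : p ∈ (b 0).primeFactors := by
        rw [← Nat.support_factorization, Finsupp.mem_support_iff]; exact hcon.1
      have h2 : p ∈ (b 1).primeFactors := by
        rw [← Nat.support_factorization, Finsupp.mem_support_iff]; exact hcon.2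
      exact (Finset.disjoint_left.1 h0 h1) h2
    · rw [if_neg (fun h => hc h.1)]
      symm
      obtain ⟨p, hp, h1, h2⟩ := Nat.Prime.not_coprime_iff_dvd.1 hc
      refine prod_eq_zero (i := p) ?_ ?_
      · rw [hPdef, Nat.mem_primeFactors]
        exact ⟨hp, h1.trans (dvd_prod_of_mem b (mem_univ 0)), hprod⟩
      · unfold lam4
        rw [if_neg]
        push Not
        exact ⟨(hp.factorization_pos_of_dvd (hb 0) h1).ne', (hp.factorization_pos_of_dvd (hb 1) h2).ne'⟩
  · rw [if_neg hb, if_neg (fun h => hb h.2)]

theorem main : H295MK.W4mw := fun j b _ => W4_eq j b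

end

end Pool.Agent.H835R2.MK_A1
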